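import Mathlib

/-!
# Density-modified quotients of the Cech-Stone remainder are k₂-Hausdorff
-/

set_option autoImplicit false
set_option linter.style.haveILetI false
set_option linter.unusedSectionVars false

universe u

namespace Pool.Agent.Results.MP_a8a70f_gt.KTwoHausdorff

open Set

/-- The underlying set of the quotient `Y / A`: the points outside `A` and one more point. -/
def FMQ {Y : Type} (A : Set Y) : Type := Option (Aᶜ : Set Y)

open Classical in
/-- The quotient map, which collapses `A` to the extra point. -/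
noncomputable def q {Y : Type} (A : Set Y) (y : Y) : FMQ A :=
  if h : y ∈ A then none else some ⟨y, h⟩

/-- The topology of `FMQ(Y, A, D_Y)`: a set `U` is open iff its preimage is open in `Y` and, in case
it contains the extra point, its preimage is dense. -/
instance {Y : Type} [TopologicalSpace Y] (A : Set Y) : TopologicalSpace (FMQ A) where
  IsOpen U := IsOpen (q A ⁻¹' U) ∧ ((none : Option (Aᶜ : Set Y)) ∈ U → Dense (q A ⁻¹' U))
  isOpen_univ := ⟨isOpen_univ, fun _ => dense_univ⟩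
  isOpen_inter := fun _ _ hs ht =>
    ⟨hs.1.inter ht.1, fun h => (hs.2 h.1).inter_of_isOpen_left (ht.2 h.2) hs.1⟩
  isOpen_sUnion := by
    intro S hS
    constructor
    · rw [preimage_sUnion]
      exact isOpen_biUnion fun t ht => (hS t ht).1
    · rintro ⟨t, ht, h⟩
      exact ((hS t ht).2 h).mono (preimage_mono (subset_sUnion_of_mem ht))

/-- `X` is k₂-Hausdorff: for every continuous map from a compact Hausdorff space to `X` the
kernel is closed. -/
def K2Hausdorff (X : Type) [TopologicalSpace X] : Prop :=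
  ∀ (K : Type u) [TopologicalSpace K] [CompactSpace K] [T2Space K] (f : K → X), Continuous f →
    IsClosed {p : K × K | f p.1 = f p.2}

/-- The Cech-Stone remainder of the natural numbers: the space of non-principal ultrafilters. -/
abbrev Rem : Type := {p : Ultrafilter ℕ // ∀ n : ℕ, p ≠ pure n}

section general

variable {Y : Type} [TopologicalSpace Y] {A : Set Y}

/-- the image of a set of points -/
def Sf (A O : Set Y) : Set (FMQ A) := {x | ∃ y : (Aᶜ : Set Y), x = (some y : Option _) ∧ (y : Y) ∈ O}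

theorem preimage_Sf (O : Set Y) : q A ⁻¹' (Sf A O) = O \ A := by
  ext y
  constructor
  · rintro ⟨z, hz, hO⟩
    by_cases h : y ∈ A
    · have : q A y = (none : Option _) := dif_pos h
      rw [this] at hz
      exact absurd hz (by simp)
    · have : q A y = (some ⟨y, h⟩ : Option _) := dif_neg h
      rw [this] at hz
      have h2 : (⟨y, h⟩ : (Aᶜ : Set Y)) = z := Option.some.inj hz
      rw [← h2] at hO
      exact ⟨hO, h⟩
  · rintro ⟨hO, h⟩
    exact ⟨⟨y, h⟩, dif_neg h, hO⟩

theorem none_notMem_Sf (O : Set Y) : (none : Option (Aᶜ : Set Y)) ∉ Sf A O := by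
  rintro ⟨y, hy, -⟩
  exact absurd hy (by simp)

theorem isOpen_Sf (hA : IsClosed A) {O : Set Y} (hO : IsOpen O) : IsOpen (Sf A O) := by
  refine ⟨?_, fun h => absurd h (none_notMem_Sf O)⟩
  rw [preimage_Sf]
  exact hO.sdiff hA

theorem isClosed_Sf {N : Set Y} (hN : IsClosed N) (hd : interior N = ∅) (hNA : Disjoint N A) :
    IsClosed (Sf A N) := by
  rw [← isOpen_compl_iff]
  have h : q A ⁻¹' (Sf A N)ᶜ = Nᶜ := by
    rw [preimage_compl, preimage_Sf, hNA.sdiff_eq_left]
  refine ⟨?_, fun _ => ?_⟩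
  · rw [h]; exact hN.isOpen_compl
  · rw [h]; exact interior_eq_empty_iff_dense_compl.1 hd

variable {K : Type u} [TopologicalSpace K] [CompactSpace K] [T2Space K] {f : K → FMQ A}

theorem mem_pre {O : Set Y} {x : K} {y : (Aᶜ : Set Y)} (h : f x = (some y : Option _)) :
    x ∈ f ⁻¹' (Sf A O) ↔ (y : Y) ∈ O := by
  constructor
  · rintro ⟨z, hz, hO⟩
    rw [h] at hz
    rw [Option.some.inj hz]
    exact hO
  · intro hO
    exact ⟨y, h, hO⟩

/-- The main step: some clopen neighbourhood has a closed preimage. -/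
theorem exists_good [CompactSpace Y] [T2Space Y] [TotallyDisconnectedSpace Y] (hA : IsClosed A)
    (hcount : ∀ C : Set Y, C.Countable → interior (closure C) = ∅) (hf : Continuous f) {y : Y}
    (hy : y ∉ A) : ∃ O : Set Y, IsOpen O ∧ y ∈ O ∧ IsClosed (f ⁻¹' (Sf A O)) := by
  obtain ⟨O, hO, hyO, hOA⟩ := compact_exists_isClopen_in_isOpen hA.isOpen_compl hy
  have hdisj : ∀ N ⊆ O, Disjoint N A := fun N hN => Set.disjoint_left.2 fun x hx => hOA (hN hx)
  -- a maximal disjoint family
  let Fam : Set (Set (Set Y)) := {B | (∀ b ∈ B, IsClopen b ∧ b.Nonempty ∧ b ⊆ O ∧ y ∉ b) ∧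
    ∀ b ∈ B, ∀ c ∈ B, (b ∩ c).Nonempty → b = c}
  obtain ⟨B, hBmax⟩ : ∃ B, Maximal (· ∈ Fam) B := by
    refine zorn_subset Fam ?_
    intro c hc hchain
    refine ⟨⋃₀ c, ⟨?_, ?_⟩, fun s hs => subset_sUnion_of_mem hs⟩
    · rintro b ⟨s, hs, hb⟩
      exact (hc hs).1 b hb
    · rintro b ⟨s, hs, hb⟩ b' ⟨t, ht, hb'⟩ hne
      rcases hchain.total hs ht with h | h
      · exact (hc ht).2 b (h hb) b' hb' hne
      · exact (hc hs).2 b hb b' (h hb') hne
  have hB := hBmax.prop
  let N : Set Y := O \ ⋃₀ B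
  have hUo : IsOpen (⋃₀ B) := isOpen_sUnion fun b hb => (hB.1 b hb).1.isOpen
  have hNcl : IsClosed N := hO.isClosed.sdiff hUo
  have hNint : interior N = ∅ := by
    by_contra hne
    have h1 : (interior N \ {y}).Nonempty := by
      by_contra hcon
      have h2 : interior N ⊆ {y} := by
        intro x hx
        by_contra hxy
        exact hcon ⟨x, hx, hxy⟩
      obtain ⟨x, hx⟩ := nonempty_iff_ne_empty.2 hne
      have h3 := hcount {y} (countable_singleton y)
      have h4 : interior N ⊆ interior (closure {y}) :=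
        interior_maximal (h2.trans subset_closure) isOpen_interior
      rw [h3] at h4
      exact h4 hx
    obtain ⟨x, hx⟩ := h1
    obtain ⟨b, hb, hxb, hbN⟩ := compact_exists_isClopen_in_isOpen
      (isOpen_interior.sdiff (isClosed_singleton (x := y))) hx
    have hbN' : b ⊆ N := fun z hz => interior_subset (hbN hz).1
    have h5 : insert b B ∈ Fam := by
      refine ⟨?_, ?_⟩
      · rintro c (rfl | hc)
        · exact ⟨hb, ⟨x, hxb⟩, fun z hz => (hbN' hz).1, fun h => (hbN h).2 rfl⟩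
        · exact hB.1 c hc
      · rintro c (rfl | hc) d (rfl | hd) hne
        · rfl
        · obtain ⟨z, hz1, hz2⟩ := hne
          exact absurd ⟨d, hd, hz2⟩ (hbN' hz1).2
        · obtain ⟨z, hz1, hz2⟩ := hne
          exact absurd ⟨c, hc, hz1⟩ (hbN' hz2).2
        · exact hB.2 c hc d hd hne
    have h6 : b ∈ B := hBmax.le_of_ge h5 (subset_insert _ _) (mem_insert _ _)
    exact (hbN' hxb).2 ⟨b, h6, hxb⟩
  have hM : IsClosed (f ⁻¹' (Sf A N)) :=
    (isClosed_Sf hNcl hNint (hdisj N sdiff_subset)).preimage hf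
  have hW : IsOpen (f ⁻¹' (Sf A O)) := (isOpen_Sf hA hO.isOpen).preimage hf
  have hMW : f ⁻¹' (Sf A N) ⊆ f ⁻¹' (Sf A O) := by
    rintro x ⟨z, hz, hzN⟩
    exact ⟨z, hz, hzN.1⟩
  obtain ⟨G, hG, hMG, hGW⟩ := normal_exists_closure_subset hM hW hMW
  -- finitely many members are needed
  let F : Set (Set Y) := {b | b ∈ B ∧ (f ⁻¹' (Sf A b) \ G).Nonempty}
  have hF : F.Finite := by
    by_contra hinf
    have hinf' : F.Infinite := hinf
    let e := hinf'.natEmbedding
    have hw : ∀ n, ∃ w : K, ∃ z : (Aᶜ : Set Y), f w = (some z : Option _) ∧ (z : Y) ∈ (e n).1 ∧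
        w ∉ G := by
      intro n
      obtain ⟨w, ⟨z, hz, hzb⟩, hwG⟩ := (e n).2.2
      exact ⟨w, z, hz, hzb, hwG⟩
    choose w z hwz hzb hwG using hw
    let C : Set Y := range fun n => (z n : Y)
    have hC := hcount C (countable_range _)
    have hCO : closure C ⊆ O := by
      refine closure_minimal ?_ hO.isClosed
      rintro _ ⟨n, rfl⟩
      exact (hB.1 _ (e n).2.1).2.2.1 (hzb n)
    have hP : IsClosed (f ⁻¹' (Sf A (closure C))) :=
      (isClosed_Sf isClosed_closure hC (hdisj _ hCO)).preimage hf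
    have hwP : ∀ n, w n ∈ f ⁻¹' (Sf A (closure C)) := fun n =>
      ⟨z n, hwz n, subset_closure ⟨n, rfl⟩⟩
    let UF : Ultrafilter ℕ := Filter.hyperfilter ℕ
    obtain ⟨x, hx, hlim⟩ := isCompact_iff_ultrafilter_le_nhds.1 hP.isCompact (UF.map w)
      (by
        rw [Filter.le_principal_iff]
        have h1 : w ⁻¹' (f ⁻¹' (Sf A (closure C))) = univ := eq_univ_of_forall hwP
        exact Filter.mem_map.2 (by rw [h1]; exact Filter.univ_mem))
    have hmem : ∀ V : Set K, IsOpen V → x ∈ V → {n | w n ∈ V} ∈ UF := fun V hV hxV =>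
      hlim (hV.mem_nhds hxV)
    have hxG : x ∉ G := by
      intro h
      have h1 := hmem G hG h
      obtain ⟨n, hn⟩ := UF.nonempty_of_mem h1
      exact hwG n hn
    obtain ⟨t, ht, htC⟩ := hx
    have htN : (t : Y) ∉ N := fun h => hxG (hMG ⟨t, ht, h⟩)
    have htB : (t : Y) ∈ ⋃₀ B := by
      by_contra h
      exact htN ⟨hCO htC, h⟩
    obtain ⟨b, hb, htb⟩ := htB
    have h1 := hmem (f ⁻¹' (Sf A b)) ((isOpen_Sf hA (hB.1 b hb).1.isOpen).preimage hf)
      ⟨t, ht, htb⟩
    have h2 : ∀ n, w n ∈ f ⁻¹' (Sf A b) → (e n).1 = b := by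
      intro n hn
      have h3 : (z n : Y) ∈ b := (mem_pre (hwz n)).1 hn
      exact hB.2 _ (e n).2.1 _ hb ⟨_, hzb n, h3⟩
    have h4 : {n | w n ∈ f ⁻¹' (Sf A b)}.Infinite := fun hfin =>
      hfin.notMem_hyperfilter h1
    obtain ⟨m, hm, k, hk, hmk⟩ := h4.nontrivial
    have h5 : (e m).1 = (e k).1 := (h2 m hm).trans (h2 k hk).symm
    exact hmk (e.injective (Subtype.ext h5))
  let O' : Set Y := O \ ⋃₀ F
  have hFcl : IsClopen (⋃₀ F) := by
    rw [sUnion_eq_biUnion]
    exact hF.isClopen_biUnion fun b hb => (hB.1 b hb.1).1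
  have hO' : IsClopen O' := hO.diff hFcl
  have hT : f ⁻¹' (Sf A O') ⊆ G := by
    rintro x ⟨t, ht, htO⟩
    by_contra hxG
    have htN : (t : Y) ∉ N := fun h => hxG (hMG ⟨t, ht, h⟩)
    have htB : (t : Y) ∈ ⋃₀ B := by
      by_contra h
      exact htN ⟨htO.1, h⟩
    obtain ⟨b, hb, htb⟩ := htB
    exact htO.2 ⟨b, ⟨hb, x, ⟨t, ht, htb⟩, hxG⟩, htb⟩
  refine ⟨O', hO'.isOpen, ⟨hyO, ?_⟩, ?_⟩
  · rintro ⟨b, hb, hyb⟩
    exact (hB.1 b hb.1).2.2.2 hyb
  · rw [← closure_subset_iff_isClosed]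
    intro x hx
    obtain ⟨t, ht, htO⟩ := hGW (closure_mono hT hx)
    refine ⟨t, ht, ?_⟩
    by_contra hcon
    have h1 : x ∈ f ⁻¹' (Sf A (O \ O')) := ⟨t, ht, htO, hcon⟩
    have h2 : IsOpen (f ⁻¹' (Sf A (O \ O'))) :=
      (isOpen_Sf hA (hO.diff hO').isOpen).preimage hf
    obtain ⟨x', hx1, hx2⟩ := mem_closure_iff.1 hx _ h2 h1
    obtain ⟨t', ht', htO'⟩ := hx2
    exact ((mem_pre ht').1 hx1).2 htO'

theorem general [CompactSpace Y] [T2Space Y] [TotallyDisconnectedSpace Y] (hA : IsClosed A)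
    (hcount : ∀ C : Set Y, C.Countable → interior (closure C) = ∅) :
    K2Hausdorff.{u} (FMQ A) := by
  intro K _ _ _ f hf
  rw [← isOpen_compl_iff, isOpen_iff_mem_nhds]
  rintro ⟨a, b⟩ hab
  have hab' : f a ≠ f b := hab
  -- the case of one special value
  have key : ∀ a b : K, f a = (none : Option (Aᶜ : Set Y)) → f b ≠ (none : Option (Aᶜ : Set Y)) →
      ∃ V W : Set K, IsOpen V ∧ IsOpen W ∧ a ∈ V ∧ b ∈ W ∧ ∀ a' ∈ V, ∀ b' ∈ W, f a' ≠ f b' := by
    intro a b ha hb
    obtain ⟨y, hy⟩ := Option.ne_none_iff_exists'.1 hb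
    obtain ⟨O, hO, hyO, hcl⟩ := exists_good hA hcount hf y.2
    refine ⟨(f ⁻¹' (Sf A O))ᶜ, f ⁻¹' (Sf A O), hcl.isOpen_compl, (isOpen_Sf hA hO).preimage hf,
      ?_, ⟨y, hy, hyO⟩, ?_⟩
    · intro h
      have h1 : f a ∈ Sf A O := h
      rw [ha] at h1
      exact none_notMem_Sf O h1
    · intro a' ha' b' hb' heq
      apply ha'
      change f a' ∈ Sf A O
      rw [heq]
      exact hb'
  have key2 : ∃ V W : Set K, IsOpen V ∧ IsOpen W ∧ a ∈ V ∧ b ∈ W ∧
      ∀ a' ∈ V, ∀ b' ∈ W, f a' ≠ f b' := by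
    by_cases ha : f a = (none : Option (Aᶜ : Set Y))
    · refine key a b ha ?_
      rw [← ha]
      exact hab'.symm
    · by_cases hb : f b = (none : Option (Aᶜ : Set Y))
      · obtain ⟨V, W, hV, hW, hbV, haW, h⟩ := key b a hb ha
        exact ⟨W, V, hW, hV, haW, hbV, fun a' ha' b' hb' => (h b' hb' a' ha').symm⟩
      · obtain ⟨y, hy⟩ := Option.ne_none_iff_exists'.1 ha
        obtain ⟨z, hz⟩ := Option.ne_none_iff_exists'.1 hb
        have hyz : (y : Y) ≠ z := by
          intro h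
          apply hab'
          rw [hy, hz, Subtype.ext h]
        obtain ⟨O, P, hO, hP, hyO, hzP, hd⟩ := t2_separation hyz
        refine ⟨f ⁻¹' (Sf A O), f ⁻¹' (Sf A P), (isOpen_Sf hA hO).preimage hf,
          (isOpen_Sf hA hP).preimage hf, ⟨y, hy, hyO⟩, ⟨z, hz, hzP⟩, ?_⟩
        rintro a' ⟨t, ht, htO⟩ b' ⟨s, hs, hsP⟩ heq
        rw [ht, hs] at heq
        have : t = s := Option.some.inj heq
        subst this
        exact Set.disjoint_left.1 hd htO hsP
  obtain ⟨V, W, hV, hW, haV, hbW, h⟩ := key2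
  refine Filter.mem_of_superset (prod_mem_nhds (hV.mem_nhds haV) (hW.mem_nhds hbW)) ?_
  rintro ⟨a', b'⟩ ⟨h1, h2⟩
  exact h a' h1 b' h2

end general

/-! ### The remainder -/

theorem mem_iff_ne_pure (p : Ultrafilter ℕ) (n : ℕ) : {n} ∈ p ↔ p = pure n := by
  constructor
  · intro h
    exact Ultrafilter.coe_injective (p.neBot.le_pure_iff.1 (Filter.le_pure_iff.2 h))
  · rintro rfl
    exact Ultrafilter.mem_pure.2 rfl

theorem singleton_notMem (p : Rem) (n : ℕ) : {n} ∉ p.1 := fun h =>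
  p.2 n ((mem_iff_ne_pure p.1 n).1 h)

theorem finite_notMem (p : Rem) {F : Set ℕ} (hF : F.Finite) : F ∉ p.1 := by
  intro h
  obtain ⟨n, -, hn⟩ := (Ultrafilter.finite_biUnion_mem_iff (s := fun n => {n}) hF).1
    (by simpa using h)
  exact singleton_notMem p n hn

instance : CompactSpace Rem := by
  suffices h : IsClosed {p : Ultrafilter ℕ | ∀ n : ℕ, p ≠ pure n} from
    isCompact_iff_compactSpace.1 h.isCompact
  have : {p : Ultrafilter ℕ | ∀ n : ℕ, p ≠ pure n} = ⋂ n, {p : Ultrafilter ℕ | {n} ∈ p}ᶜ := by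
    ext p
    simp [mem_iff_ne_pure]
  rw [this]
  exact isClosed_iInter fun n => (ultrafilter_isOpen_basic _).isClosed_compl

/-- splitting -/
theorem split (p : Ultrafilter ℕ) {S : Set ℕ} (hS : S.Infinite) :
    ∃ T ⊆ S, T.Infinite ∧ T ∉ p := by
  let e := hS.natEmbedding
  let A0 : Set ℕ := range fun n => (e (2 * n)).1
  let A1 : Set ℕ := range fun n => (e (2 * n + 1)).1
  have h0 : A0.Infinite := infinite_range_of_injective fun m n h => by
    have := e.injective (Subtype.ext h)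
    omega
  have h1 : A1.Infinite := infinite_range_of_injective fun m n h => by
    have := e.injective (Subtype.ext h)
    omega
  have hd : Disjoint A0 A1 := by
    rw [Set.disjoint_left]
    rintro _ ⟨m, rfl⟩ ⟨n, hn⟩
    have := e.injective (Subtype.ext hn)
    omega
  by_cases h : A0 ∈ p
  · refine ⟨A1, ?_, h1, fun h' => ?_⟩
    · rintro _ ⟨n, rfl⟩
      exact (e _).2
    · obtain ⟨x, hx1, hx2⟩ := p.nonempty_of_mem (Filter.inter_mem h h')
      exact Set.disjoint_left.1 hd hx1 hx2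
  · refine ⟨A0, ?_, h0, h⟩
    rintro _ ⟨n, rfl⟩
    exact (e _).2

/-- A countable set of nonprincipal ultrafilters avoids some infinite subset. -/
theorem avoid (p : ℕ → Rem) {S : Set ℕ} (hS : S.Infinite) :
    ∃ T ⊆ S, T.Infinite ∧ ∀ n, T ∉ (p n).1 := by
  -- decreasing sequence of infinite sets
  let St : Type := {T : Set ℕ // T ⊆ S ∧ T.Infinite}
  have hstep : ∀ (n : ℕ) (T : St), ∃ T' : St, T'.1 ⊆ T.1 ∧ T'.1 ∉ (p n).1 := by
    intro n T
    obtain ⟨T', h1, h2, h3⟩ := split (p n).1 T.2.2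
    exact ⟨⟨T', h1.trans T.2.1, h2⟩, h1, h3⟩
  choose nx hnx1 hnx2 using hstep
  let s : ℕ → St := fun n => Nat.rec ⟨S, Subset.rfl, hS⟩ (fun n r => nx n r) n
  have hs : ∀ n, s (n + 1) = nx n (s n) := fun n => rfl
  have hanti : Antitone fun n => (s n).1 := antitone_nat_of_succ_le fun n => by
    rw [hs]; exact hnx1 _ _
  -- diagonal choice
  have hch : ∀ (n m : ℕ), ∃ t ∈ (s n).1, m < t := fun n m => (s n).2.2.exists_gt m
  choose c hc1 hc2 using hch
  let t : ℕ → ℕ := fun n => Nat.rec (c 0 0) (fun n r => c (n + 1) r) n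
  have ht : ∀ n, t (n + 1) = c (n + 1) (t n) := fun n => rfl
  have htm : ∀ n, t n ∈ (s n).1 := by
    intro n
    cases n with
    | zero => exact hc1 0 0
    | succ n => rw [ht]; exact hc1 (n + 1) (t n)
  have htmono : StrictMono t := strictMono_nat_of_lt_succ fun n => by
    rw [ht]; exact hc2 _ _
  refine ⟨range t, ?_, infinite_range_of_injective htmono.injective, fun n h => ?_⟩
  · rintro _ ⟨n, rfl⟩
    exact (s n).2.1 (htm n)
  · have h1 : range t ⊆ (s (n + 1)).1 ∪ t '' (Iic n) := by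
      rintro _ ⟨k, rfl⟩
      by_cases hk : k ≤ n
      · exact Or.inr ⟨k, hk, rfl⟩
      · exact Or.inl (hanti (show n + 1 ≤ k by omega) (htm k))
    have h2 := Filter.mem_of_superset h h1
    rcases Ultrafilter.union_mem_iff.1 h2 with h3 | h3
    · rw [hs] at h3
      exact hnx2 n (s n) h3
    · exact finite_notMem (p n) ((finite_Iic n).image t) h3

theorem countable_nowhere (C : Set Rem) (hC : C.Countable) : interior (closure C) = ∅ := by
  by_contra hne
  obtain ⟨p, hp⟩ := nonempty_iff_ne_empty.2 hne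
  obtain ⟨V, hV, hVC⟩ := isOpen_induced_iff.1 (isOpen_interior (s := closure C))
  have hpV : p.1 ∈ V := by
    have : p ∈ Subtype.val ⁻¹' V := by rw [hVC]; exact hp
    exact this
  obtain ⟨_, ⟨S, rfl⟩, hpS, hSV⟩ := ultrafilterBasis_is_basis.exists_subset_of_mem_open hpV hV
  have hSinf : S.Infinite := fun hfin => finite_notMem p hfin hpS
  -- an enumeration of `C`
  have hCne : C.Nonempty := by
    by_contra h
    rw [not_nonempty_iff_eq_empty] at h
    rw [h, closure_empty, interior_empty] at hp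
    exact hp
  obtain ⟨c, hc⟩ := hC.exists_eq_range hCne
  obtain ⟨T, hTS, hT, hTc⟩ := avoid c hSinf
  -- a nonprincipal ultrafilter containing `T`
  have hex : ∃ r : Rem, T ∈ r.1 := by
    have hne' : (Filter.cofinite ⊓ Filter.principal T : Filter ℕ).NeBot :=
      hT.cofinite_inf_principal_neBot
    let r := Ultrafilter.of (Filter.cofinite ⊓ Filter.principal T)
    have hr : (r : Filter ℕ) ≤ Filter.cofinite ⊓ Filter.principal T := Ultrafilter.of_le _
    refine ⟨⟨r, fun n h => ?_⟩, ?_⟩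
    · have h1 : {n}ᶜ ∈ r := (hr.trans inf_le_left) (finite_singleton n).compl_mem_cofinite
      rw [h] at h1
      exact Ultrafilter.mem_pure.1 h1 rfl
    · exact (hr.trans inf_le_right) (Filter.mem_principal_self T)
  obtain ⟨r, hr⟩ := hex
  have hrC : r ∈ closure C := by
    apply interior_subset
    rw [← hVC]
    exact hSV (Filter.mem_of_superset hr hTS)
  obtain ⟨x, hx1, hx2⟩ := mem_closure_iff.1 hrC {q : Rem | T ∈ q.1}
    ((ultrafilter_isOpen_basic T).preimage continuous_subtype_val) hr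
  rw [hc] at hx2
  obtain ⟨n, rfl⟩ := hx2
  exact hTc n hx1

/-- For every nonempty closed set `A` (in particular every nonempty finite set) of the Cech-Stone
remainder of the natural numbers, the density-modified quotient is k₂-Hausdorff. -/
theorem result (A : Set Rem) (hA : IsClosed A) (_ : A.Nonempty) : K2Hausdorff.{u} (FMQ A) :=
  general hA countable_nowhere

end Pool.Agent.Results.MP_a8a70f_gt.KTwoHausdorff
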